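import Mathlib
import Pool.Agent.W448.HHHComp

namespace Pool.Agent.W448.HHH

/-- The product of the seven determinants for a function `f : Fin 7 → Fin 7`. -/
def blockProd (f : Fin 7 → Fin 7) : ℤ :=
  ∏ B : Fin 7, Matrix.det (Matrix.of fun i j : Fin 4 => vec (f (B + dset i)) j)

theorem blockProd_eq (f : Fin 7 → Fin 7) :
    blockProd f =
      det4 (vec (f 0)) (vec (f 2)) (vec (f 3)) (vec (f 4)) *
      (det4 (vec (f 5)) (vec (f 0)) (vec (f 1)) (vec (f 2)) *
      (det4 (vec (f 1)) (vec (f 3)) (vec (f 4)) (vec (f 5)) *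
      (det4 (vec (f 2)) (vec (f 4)) (vec (f 5)) (vec (f 6)) *
      (det4 (vec (f 3)) (vec (f 5)) (vec (f 6)) (vec (f 0)) *
      (det4 (vec (f 4)) (vec (f 6)) (vec (f 0)) (vec (f 1)) *
      det4 (vec (f 6)) (vec (f 1)) (vec (f 2)) (vec (f 3))))))) := by
  have h : ∀ B : Fin 7, Matrix.det (Matrix.of fun i j : Fin 4 => vec (f (B + dset i)) j) =
      det4 (vec (f (B + 2))) (vec (f (B + 4))) (vec (f (B + 5))) (vec (f (B + 6))) := by
    intro B
    rw [← det4_eq]
    congr 1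
    ext i j
    fin_cases i <;> rfl
  unfold blockProd
  simp only [h, Fin.prod_univ_succ]
  simp only [Fin.isValue, Fin.succ_zero_eq_one, Fin.reduceSucc, Fin.reduceAdd, zero_add]
  ring

theorem blockProd_noninj (f : Fin 7 → Fin 7) (hf : ¬ Function.Injective f) : blockProd f = 0 := by
  have hcomb : ∀ x y : Fin 7, x ≠ y → ∃ B : Fin 7, ∃ i k : Fin 4, i ≠ k ∧ B + dset i = x ∧
      B + dset k = y := by decide +kernel
  obtain ⟨x, y, hxy, hne⟩ : ∃ x y, f x = f y ∧ x ≠ y := by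
    simpa [Function.Injective] using hf
  obtain ⟨B, i, k, hik, rfl, rfl⟩ := hcomb x y hne
  refine Finset.prod_eq_zero (Finset.mem_univ B) ?_
  refine Matrix.det_zero_of_row_eq hik ?_
  ext j
  simp [Matrix.of_apply, hxy]

/-- Functions `Fin 7 → Fin 7` as 7-tuples, in a convenient order. -/
def tupleEquiv : (Fin 7 → Fin 7) ≃
    Fin 7 × Fin 7 × Fin 7 × Fin 7 × Fin 7 × Fin 7 × Fin 7 where
  toFun f := (f 0, f 2, f 3, f 4, f 1, f 5, f 6)
  invFun t := ![t.1, t.2.2.2.2.1, t.2.1, t.2.2.1, t.2.2.2.1, t.2.2.2.2.2.1, t.2.2.2.2.2.2]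
  left_inv f := by
    ext i
    fin_cases i <;> rfl
  right_inv t := rfl

theorem bigSum_eq : bigSum = ∑ f : Fin 7 → Fin 7,
    dn (f 0) (f 2) (f 3) (f 4) * (dn (f 5) (f 0) (f 1) (f 2) * (dn (f 1) (f 3) (f 4) (f 5) *
      (dn (f 2) (f 4) (f 5) (f 6) * (dn (f 3) (f 5) (f 6) (f 0) * (dn (f 4) (f 6) (f 0) (f 1) *
        dn (f 6) (f 1) (f 2) (f 3)))))) := by
  refine Eq.trans ?_ (Fintype.sum_equiv tupleEquiv _ (fun t : Fin 7 × Fin 7 × Fin 7 × Fin 7 × Fin 7 × Fin 7 × Fin 7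
    => dn t.1 t.2.1 t.2.2.1 t.2.2.2.1 * (dn t.2.2.2.2.2.1 t.1 t.2.2.2.2.1 t.2.1 *
      (dn t.2.2.2.2.1 t.2.2.1 t.2.2.2.1 t.2.2.2.2.2.1 *
      (dn t.2.1 t.2.2.2.1 t.2.2.2.2.2.1 t.2.2.2.2.2.2 *
      (dn t.2.2.1 t.2.2.2.2.2.1 t.2.2.2.2.2.2 t.1 *
      (dn t.2.2.2.1 t.2.2.2.2.2.2 t.1 t.2.2.2.2.1 *
        dn t.2.2.2.2.2.2 t.2.2.2.2.1 t.2.1 t.2.2.1)))))) (fun f => rfl)).symm
  simp only [Fintype.sum_prod_type, bigSum, s7_eq, lmul_eq, Finset.mul_sum]

theorem perm_sum_ne_zero :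
    ∑ τ : Equiv.Perm (Fin 7), blockProd (fun x => τ x) ≠ 0 := by
  have h1 : ∑ τ : Equiv.Perm (Fin 7), blockProd (fun x => τ x) =
      ∑ f : Fin 7 → Fin 7, blockProd f := by
    classical
    rw [← Finset.sum_filter_add_sum_filter_not Finset.univ
      (fun f : Fin 7 → Fin 7 => Function.Injective f) blockProd]
    rw [Finset.sum_eq_zero (s := Finset.filter (fun f : Fin 7 → Fin 7 => ¬ Function.Injective f)
      Finset.univ), add_zero]
    · refine Finset.sum_bij (fun τ _ => (fun x => τ x)) ?_ ?_ ?_ ?_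
      · intro τ _
        simpa using τ.injective
      · intro τ _ τ' _ h
        ext x
        exact congrArg Fin.val (congrFun h x)
      · intro f hf
        have hf' : Function.Injective f := by simpa using hf
        exact ⟨Equiv.ofBijective f (Finite.injective_iff_bijective.1 hf'), Finset.mem_univ _, rfl⟩
      · intro τ _
        rfl
    · intro f hf
      exact blockProd_noninj f (by simpa using hf)
  rw [h1]
  intro h0
  have hmod : (((∑ f : Fin 7 → Fin 7, blockProd f : ℤ)) : ZMod 11) = ((bigSum : ℕ) : ZMod 11) := by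
    rw [bigSum_eq]
    push_cast
    refine Finset.sum_congr rfl ?_
    intro f _
    have hd : ∀ a b c d : Fin 7, ((det4 (vec a) (vec b) (vec c) (vec d) : ℤ) : ZMod 11) =
        ((dn a b c d : ℕ) : ZMod 11) := by
      intro a b c d
      have := (ZMod.intCast_zmod_eq_zero_iff_dvd _ 11).2 (dn_spec a b c d)
      push_cast at this
      exact sub_eq_zero.1 this
    rw [blockProd_eq]
    push_cast
    simp only [hd]
  rw [h0, bigSum_val] at hmod
  revert hmod
  decide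

end Pool.Agent.W448.HHH
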