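import Mathlib

/-!
# The Hermite-Hadamard-Howe map

Definitions for the Hermite-Hadamard-Howe map `h_{d,n} : S^d(S^n V) → S^n(S^d V)` and for the
`S_{(d^n)} V`-isotypic component of `S^d(S^n V)`.

Everything is done inside spaces of multilinear maps on the dual `V^*`.
-/

open Module

namespace Pool.Agent.W448.HHH

/-- `V^{⊗ι}`, regarded as the space of multilinear maps `(V^*)^ι → ℂ`. -/
abbrev Tens (V : Type*) [AddCommGroup V] [Module ℂ V] (ι : Type*) :=
  MultilinearMap ℂ (fun _ : ι => Dual ℂ V) ℂ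

section Defs

variable (V : Type*) [AddCommGroup V] [Module ℂ V]

/-- Permuting (or relabelling) the tensor positions by `σ : ι ≃ ι'`, as a linear map:
`(permute σ T) φ = T (fun i => φ (σ i))`. -/
def permute {ι ι' : Type*} (σ : ι ≃ ι') : Tens V ι →ₗ[ℂ] Tens V ι' where
  toFun T := T.domDomCongr σ
  map_add' _ _ := rfl
  map_smul' _ _ := rfl

/-- The action of `g ∈ GL(V)` on `V^{⊗ι}`: `(g T) φ = T (fun i => φ i ∘ g)`. -/
noncomputable def act {ι : Type*} (g : V ≃ₗ[ℂ] V) : Tens V ι →ₗ[ℂ] Tens V ι :=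
  MultilinearMap.compLinearMapₗ (fun _ : ι => (g : V →ₗ[ℂ] V).dualMap)

/-- `S^k(S^m V)` inside `V^{⊗(k × m)}` (`k` blocks of `m` factors): the tensors which are invariant
under all permutations of positions `(a, i) ↦ (τ a, ρ_a i)`, i.e. symmetric inside each
block and symmetric under permuting the blocks. -/
def symSym (k m : ℕ) : Submodule ℂ (Tens V (Fin k × Fin m)) where
  carrier := {T | ∀ (τ : Equiv.Perm (Fin k)) (ρ : Fin k → Equiv.Perm (Fin m)),
    permute V (Equiv.prodShear τ ρ) T = T}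
  zero_mem' _ _ := map_zero _
  add_mem' hS hT τ ρ := (map_add _ _ _).trans (congrArg₂ _ (hS τ ρ) (hT τ ρ))
  smul_mem' c _ hT τ ρ := (map_smul _ c _).trans (congrArg _ (hT τ ρ))

/-- Symmetrization inside each of the `k` blocks of `m` factors. -/
noncomputable def symInner (k m : ℕ) :
    Tens V (Fin k × Fin m) →ₗ[ℂ] Tens V (Fin k × Fin m) :=
  (((m.factorial : ℂ) ^ k)⁻¹) • ∑ ρ : Fin k → Equiv.Perm (Fin m),
    permute V (Equiv.prodShear (Equiv.refl (Fin k)) ρ)

/-- Symmetrization over the `k` blocks of `m` factors. -/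
noncomputable def symBlocks (k m : ℕ) :
    Tens V (Fin k × Fin m) →ₗ[ℂ] Tens V (Fin k × Fin m) :=
  ((k.factorial : ℂ)⁻¹) • ∑ τ : Equiv.Perm (Fin k),
    permute V (Equiv.prodShear τ (fun _ => Equiv.refl (Fin m)))

/-- Regrouping `d` blocks of `n` factors into `n` blocks of `d` factors: the `i`-th new block
collects the `i`-th factor of each of the `d` old blocks. -/
def regroup (d n : ℕ) : Tens V (Fin d × Fin n) →ₗ[ℂ] Tens V (Fin n × Fin d) :=
  permute V (Equiv.prodComm (Fin d) (Fin n))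

/-- The map `h_{d,n}` on all of `V^{⊗(d × n)}`: regroup, symmetrize inside each new block,
then symmetrize over the new blocks. -/
noncomputable def hhhTens (d n : ℕ) : Tens V (Fin d × Fin n) →ₗ[ℂ] Tens V (Fin n × Fin d) :=
  symBlocks V n d ∘ₗ symInner V n d ∘ₗ regroup V d n

end Defs

variable {V : Type*} [AddCommGroup V] [Module ℂ V]

@[simp] theorem permute_apply {ι ι' : Type*} (σ : ι ≃ ι') (T : Tens V ι) (φ : ι' → Dual ℂ V) :
    permute V σ T φ = T (fun i => φ (σ i)) := rfl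

@[simp] theorem act_apply {ι : Type*} (g : V ≃ₗ[ℂ] V) (T : Tens V ι) (φ : ι → Dual ℂ V) :
    act V g T φ = T (fun i => (φ i) ∘ₗ (g : V →ₗ[ℂ] V)) := rfl

theorem permute_permute {ι ι' ι'' : Type*} (σ : ι ≃ ι') (σ' : ι' ≃ ι'') (T : Tens V ι) :
    permute V σ' (permute V σ T) = permute V (σ.trans σ') T := rfl

theorem act_permute {ι ι' : Type*} (g : V ≃ₗ[ℂ] V) (σ : ι ≃ ι') (T : Tens V ι) :
    act V g (permute V σ T) = permute V σ (act V g T) := rfl

/-- The average over the whole wreath product, unnormalised. -/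
noncomputable def wreathSum (V : Type*) [AddCommGroup V] [Module ℂ V] (k m : ℕ) :
    Tens V (Fin k × Fin m) →ₗ[ℂ] Tens V (Fin k × Fin m) :=
  ∑ p : Equiv.Perm (Fin k) × (Fin k → Equiv.Perm (Fin m)), permute V (Equiv.prodShear p.1 p.2)

theorem wreathSum_apply (k m : ℕ) (T : Tens V (Fin k × Fin m)) :
    wreathSum V k m T = ∑ p : Equiv.Perm (Fin k) × (Fin k → Equiv.Perm (Fin m)),
      permute V (Equiv.prodShear p.1 p.2) T := by
  simp [wreathSum, LinearMap.sum_apply]

/-- Left translation on pairs `(τ, ρ)`. -/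
def wreathTranslate {k m : ℕ} (τ' : Equiv.Perm (Fin k)) (ρ' : Fin k → Equiv.Perm (Fin m)) :
    (Equiv.Perm (Fin k) × (Fin k → Equiv.Perm (Fin m))) ≃
      (Equiv.Perm (Fin k) × (Fin k → Equiv.Perm (Fin m))) where
  toFun p := (p.1.trans τ', fun a => (p.2 a).trans (ρ' (p.1 a)))
  invFun p := (p.1.trans τ'.symm, fun a => (p.2 a).trans (ρ' (τ'.symm (p.1 a))).symm)
  left_inv p := by
    ext <;> simp
  right_inv p := by
    ext <;> simp

theorem wreathSum_mem (k m : ℕ) (T : Tens V (Fin k × Fin m)) :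
    wreathSum V k m T ∈ symSym V k m := by
  intro τ' ρ'
  rw [wreathSum_apply, map_sum]
  refine Fintype.sum_equiv (wreathTranslate τ' ρ') _ _ ?_
  intro p
  rw [permute_permute]
  rfl

theorem act_mem_symSym {k m : ℕ} (g : V ≃ₗ[ℂ] V) {T : Tens V (Fin k × Fin m)}
    (hT : T ∈ symSym V k m) : act V g T ∈ symSym V k m := by
  intro τ ρ
  rw [← act_permute, hT]

theorem hhhTens_eq (d n : ℕ) (T : Tens V (Fin d × Fin n)) :
    hhhTens V d n T = ((n.factorial : ℂ)⁻¹ * (((d.factorial : ℂ) ^ n)⁻¹)) •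
      wreathSum V n d (regroup V d n T) := by
  simp only [hhhTens, symBlocks, symInner, LinearMap.comp_apply, LinearMap.smul_apply,
    LinearMap.sum_apply, wreathSum_apply, map_smul, map_sum, Fintype.sum_prod_type]
  rw [← Finset.smul_sum, smul_smul, mul_comm, Finset.sum_comm]
  rfl

theorem hhhTens_mem (d n : ℕ) (T : Tens V (Fin d × Fin n)) :
    hhhTens V d n T ∈ symSym V n d := by
  rw [hhhTens_eq]
  exact Submodule.smul_mem _ _ (wreathSum_mem _ _ _)

theorem act_hhhTens (g : V ≃ₗ[ℂ] V) (d n : ℕ) (T : Tens V (Fin d × Fin n)) :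
    act V g (hhhTens V d n T) = hhhTens V d n (act V g T) := by
  rw [hhhTens_eq, hhhTens_eq, map_smul, wreathSum_apply, wreathSum_apply, map_sum]
  rfl

/-- The Hermite-Hadamard-Howe map `h_{d,n} : S^d(S^n V) → S^n(S^d V)`. -/
noncomputable def hhh (V : Type*) [AddCommGroup V] [Module ℂ V] (d n : ℕ) :
    symSym V d n →ₗ[ℂ] symSym V n d :=
  LinearMap.codRestrict (symSym V n d) (hhhTens V d n ∘ₗ (symSym V d n).subtype)
    (fun T => hhhTens_mem d n (T : Tens V (Fin d × Fin n)))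

/-- The action of `g ∈ GL(V)` on `S^k(S^m V)`. -/
noncomputable def symAct (V : Type*) [AddCommGroup V] [Module ℂ V] (k m : ℕ) (g : V ≃ₗ[ℂ] V) :
    symSym V k m →ₗ[ℂ] symSym V k m :=
  (act V g).restrict (fun _ hT => act_mem_symSym g hT)

/-- The value at `φ` of the tensor `(w_1 ∧ … ∧ w_n)^{⊗ d}`. -/
noncomputable def wedgeVal (d : ℕ) {n : ℕ} (w : Fin n → V) (φ : Fin d × Fin n → Dual ℂ V) : ℂ :=
  ∏ a : Fin d, Matrix.det (Matrix.of fun i j : Fin n => φ (a, i) (w j))

theorem wedgeVal_update (d : ℕ) {n : ℕ} (w : Fin n → V) [DecidableEq (Fin d × Fin n)]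
    (φ : Fin d × Fin n → Dual ℂ V) (a : Fin d) (i : Fin n) (ψ : Dual ℂ V) :
    wedgeVal d w (Function.update φ (a, i) ψ) =
        (∏ b ∈ Finset.univ.erase a, Matrix.det (Matrix.of fun i' j : Fin n => φ (b, i') (w j))) *
        Matrix.det ((Matrix.of fun i' j : Fin n => φ (a, i') (w j)).updateRow i
          (fun j => ψ (w j))) := by
  rw [wedgeVal, ← Finset.mul_prod_erase Finset.univ _ (Finset.mem_univ a), mul_comm]
  congr 1
  · refine Finset.prod_congr rfl ?_
    intro b hb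
    have hba : b ≠ a := Finset.ne_of_mem_erase hb
    congr 1
    ext i' j
    simp [Function.update, hba]
  · congr 1
    ext i' j
    by_cases h : i' = i
    · subst h
      simp
    · simp [Function.update, h, Matrix.updateRow_apply]

theorem wedgeVal_update_add (d : ℕ) {n : ℕ} (w : Fin n → V) [DecidableEq (Fin d × Fin n)]
    (φ : Fin d × Fin n → Dual ℂ V) (x : Fin d × Fin n) (ψ₁ ψ₂ : Dual ℂ V) :
    wedgeVal d w (Function.update φ x (ψ₁ + ψ₂)) =
      wedgeVal d w (Function.update φ x ψ₁) + wedgeVal d w (Function.update φ x ψ₂) := by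
  obtain ⟨a, i⟩ := x
  rw [wedgeVal_update, wedgeVal_update, wedgeVal_update, ← mul_add, ← Matrix.det_updateRow_add]
  rfl

theorem wedgeVal_update_smul (d : ℕ) {n : ℕ} (w : Fin n → V) [DecidableEq (Fin d × Fin n)]
    (φ : Fin d × Fin n → Dual ℂ V) (x : Fin d × Fin n) (c : ℂ) (ψ : Dual ℂ V) :
    wedgeVal d w (Function.update φ x (c • ψ)) = c • wedgeVal d w (Function.update φ x ψ) := by
  obtain ⟨a, i⟩ := x
  have h2 : (fun j => (c • ψ) (w j)) = c • (fun j => ψ (w j)) := rfl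
  rw [wedgeVal_update, wedgeVal_update, h2, Matrix.det_updateRow_smul, smul_eq_mul]
  ring

/-- The tensor `(w_1 ∧ … ∧ w_n)^{⊗ d} ∈ V^{⊗(d × n)}`, for `w : Fin n → V`:
its value at `φ` is `∏_a det (φ(a,i)(w_j))_{i,j}`. -/
noncomputable def wedgePow (d : ℕ) {n : ℕ} (w : Fin n → V) : Tens V (Fin d × Fin n) where
  toFun φ := wedgeVal d w φ
  map_update_add' φ x ψ₁ ψ₂ := wedgeVal_update_add d w φ x ψ₁ ψ₂
  map_update_smul' φ x c ψ := wedgeVal_update_smul d w φ x c ψ

@[simp] theorem wedgePow_apply (d : ℕ) {n : ℕ} (w : Fin n → V) (φ : Fin d × Fin n → Dual ℂ V) :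
    wedgePow d w φ = ∏ a : Fin d, Matrix.det (Matrix.of fun i j : Fin n => φ (a, i) (w j)) := rfl

theorem act_wedgePow (g : V ≃ₗ[ℂ] V) (d : ℕ) {n : ℕ} (w : Fin n → V) :
    act V g (wedgePow d w) = wedgePow d (fun j => g (w j)) := rfl

/-- The irreducible `GL(V)`-module `S_{(d^n)} V` (`n` rows of length `d`), realised as the span of
all `(w_1 ∧ … ∧ w_n)^{⊗ d}` in `V^{⊗(d × n)}`. -/
noncomputable def rectSchur (V : Type*) [AddCommGroup V] [Module ℂ V] (d n : ℕ) :
    Submodule ℂ (Tens V (Fin d × Fin n)) :=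
  Submodule.span ℂ (Set.range (fun w : Fin n → V => wedgePow d w))

theorem act_mem_rectSchur {d n : ℕ} (g : V ≃ₗ[ℂ] V) {T : Tens V (Fin d × Fin n)}
    (hT : T ∈ rectSchur V d n) : act V g T ∈ rectSchur V d n := by
  have h : (rectSchur V d n).map (act V g) ≤ rectSchur V d n := by
    rw [rectSchur, Submodule.map_span_le]
    rintro _ ⟨w, rfl⟩
    rw [act_wedgePow]
    exact Submodule.subset_span ⟨_, rfl⟩
  exact h (Submodule.mem_map_of_mem hT)

/-- The action of `g ∈ GL(V)` on `S_{(d^n)} V`. -/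
noncomputable def rectAct (V : Type*) [AddCommGroup V] [Module ℂ V] (d n : ℕ) (g : V ≃ₗ[ℂ] V) :
    rectSchur V d n →ₗ[ℂ] rectSchur V d n :=
  (act V g).restrict (fun _ hT => act_mem_rectSchur g hT)

/-- The `S_{(d^n)} V`-isotypic component of `S^d(S^n V)`: the sum of all submodules isomorphic
to `S_{(d^n)} V`, i.e. the sum of the ranges of all injective `GL(V)`-equivariant
linear maps `S_{(d^n)} V → S^d(S^n V)`. -/
noncomputable def rectIsotypic (V : Type*) [AddCommGroup V] [Module ℂ V] (d n : ℕ) :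
    Submodule ℂ (symSym V d n) :=
  ⨆ e : {e : rectSchur V d n →ₗ[ℂ] symSym V d n //
    Function.Injective e ∧ ∀ g : V ≃ₗ[ℂ] V, e ∘ₗ rectAct V d n g = symAct V d n g ∘ₗ e},
    LinearMap.range e.1

end Pool.Agent.W448.HHH
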