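import Mathlib
import Pool.Agent.W448.HHHDefs

open Module

namespace Pool.Agent.W448.HHH

variable {V : Type*} [AddCommGroup V] [Module ℂ V]

/-- Polarization: an element of `S^k(S^m V)` which vanishes on all arguments that are constant
inside the blocks is zero. -/
theorem eq_zero_of_diag {k m : ℕ} {S : Tens V (Fin k × Fin m)} (hS : S ∈ symSym V k m)
    (h : ∀ β : Fin k → Dual ℂ V, S (fun x => β x.1) = 0) : S = 0 := by
  classical
  ext φ
  let mon : (Fin k × Fin m → Fin m) → (Fin k × Fin m →₀ ℕ) :=
    fun r => ∑ x, Finsupp.single (x.1, r x) 1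
  let P : MvPolynomial (Fin k × Fin m) ℂ :=
    ∑ r : Fin k × Fin m → Fin m, MvPolynomial.monomial (mon r) (S (fun x => φ (x.1, r x)))
  have hmon : ∀ (c : Fin k × Fin m → ℂ) (r : Fin k × Fin m → Fin m) (a : ℂ),
      MvPolynomial.eval c (MvPolynomial.monomial (mon r) a) = a * ∏ x, c (x.1, r x) := by
    intro c r a
    rw [MvPolynomial.eval_monomial]
    congr 1
    simp only [mon]
    rw [← Finsupp.prod_finsetSum_index]
    · simp
    · simp
    · intros; rw [pow_add]
  have hP : P = 0 := by
    apply MvPolynomial.funext
    intro c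
    have h0 := h (fun b => ∑ j : Fin m, c (b, j) • φ (b, j))
    rw [MultilinearMap.map_sum] at h0
    simp only [MultilinearMap.map_smul_univ, smul_eq_mul] at h0
    simp only [P, map_sum, hmon, map_zero]
    rw [← h0]
    refine Finset.sum_congr rfl ?_
    intro r _
    rw [mul_comm]
  have hcoeff : P.coeff (∑ x : Fin k × Fin m, Finsupp.single x 1) = 0 := by rw [hP]; simp
  simp only [P, MvPolynomial.coeff_sum, MvPolynomial.coeff_monomial] at hcoeff
  have hinv : ∀ r : Fin k × Fin m → Fin m, mon r = ∑ x : Fin k × Fin m, Finsupp.single x 1 →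
      S (fun x => φ (x.1, r x)) = S φ := by
    intro r hr
    have hsurj : Function.Surjective (fun x : Fin k × Fin m => ((x.1, r x) : Fin k × Fin m)) := by
      intro y
      by_contra hy
      have := DFunLike.congr_fun hr y
      simp only [mon, Finsupp.finsetSum_apply] at this
      rw [Finset.sum_eq_zero] at this
      · rw [Finset.sum_eq_single y] at this
        · simp at this
        · intro b _ hb; simp [hb]
        · simp
      · intro x _
        rw [Finsupp.single_apply, if_neg]
        intro hx
        exact hy ⟨x, hx⟩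
    have hbs : ∀ a : Fin k, Function.Surjective (fun i : Fin m => r (a, i)) := by
      intro a j
      obtain ⟨x, hx⟩ := hsurj (a, j)
      simp only [Prod.mk.injEq] at hx
      refine ⟨x.2, ?_⟩
      rw [← hx.2, ← hx.1]
    have hb : ∀ a : Fin k, Function.Bijective (fun i : Fin m => r (a, i)) :=
      fun a => Finite.surjective_iff_bijective.1 (hbs a)
    have := DFunLike.congr_fun
      (hS (Equiv.refl _) (fun a => Equiv.ofBijective _ (hb a))) φ
    rw [permute_apply] at this
    exact this
  have hsum : (∑ r : Fin k × Fin m → Fin m,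
      if mon r = ∑ x : Fin k × Fin m, Finsupp.single x 1 then (1 : ℂ) else 0) * S φ = 0 := by
    rw [Finset.sum_mul]
    refine Eq.trans ?_ hcoeff
    refine Finset.sum_congr rfl ?_
    intro r _
    split_ifs with hr
    · rw [one_mul, hinv r hr]
    · rw [zero_mul]
  rcases mul_eq_zero.1 hsum with h1 | h1
  · exfalso
    rw [Finset.sum_boole] at h1
    have h2 : (Finset.filter (fun r : Fin k × Fin m → Fin m =>
      mon r = ∑ x : Fin k × Fin m, Finsupp.single x 1) Finset.univ).card = 0 := by
      exact_mod_cast h1
    rw [Finset.card_eq_zero] at h2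
    have h3 : (fun x : Fin k × Fin m => x.2) ∈ (Finset.filter (fun r : Fin k × Fin m → Fin m =>
      mon r = ∑ x : Fin k × Fin m, Finsupp.single x 1) Finset.univ) := by
      simp [mon]
    rw [h2] at h3
    simp at h3
  · rw [h1]; rfl

/-- Density: a multilinear map which vanishes at block-constant arguments `β` with
`det (β_i(w_j)) ≠ 0` vanishes at all block-constant arguments, as soon as the determinant is not
identically zero. -/
theorem diag_of_generic {n m : ℕ} {S : Tens V (Fin n × Fin m)} (w : Fin n → V)
    (γ : Fin n → Dual ℂ V) (hγ : (Matrix.of fun i j => γ i (w j)).det ≠ 0)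
    (h : ∀ β : Fin n → Dual ℂ V, (Matrix.of fun i j => β i (w j)).det ≠ 0 →
      S (fun x => β x.1) = 0) (β : Fin n → Dual ℂ V) : S (fun x => β x.1) = 0 := by
  classical
  let δ : Fin n → Dual ℂ V := fun i => γ i - β i
  let F : Polynomial ℂ := ∑ s : Finset (Fin n × Fin m),
    Polynomial.C (S (s.piecewise (fun x => β x.1) (fun x => δ x.1))) * Polynomial.X ^ (sᶜ.card)
  have hF : ∀ t : ℂ, F.eval t = S (fun x => β x.1 + t • δ x.1) := by
    intro t
    have h1 : (fun x : Fin n × Fin m => β x.1 + t • δ x.1) =
        (fun x => β x.1) + (fun x : Fin n × Fin m => t • δ x.1) := rfl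
    rw [h1, MultilinearMap.map_add_univ]
    simp only [F, Polynomial.eval_finsetSum, Polynomial.eval_mul, Polynomial.eval_C,
      Polynomial.eval_pow, Polynomial.eval_X]
    refine Finset.sum_congr rfl ?_
    intro s _
    have h2 : s.piecewise (fun x : Fin n × Fin m => β x.1) (fun x => t • δ x.1) =
        fun x => (if x ∈ s then (1 : ℂ) else t) •
          s.piecewise (fun x : Fin n × Fin m => β x.1) (fun x => δ x.1) x := by
      ext x
      by_cases hx : x ∈ s <;> simp [hx]
    rw [h2, MultilinearMap.map_smul_univ, smul_eq_mul, mul_comm]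
    congr 1
    rw [Finset.prod_ite, Finset.prod_const_one, one_mul, Finset.prod_const]
    congr 2
    ext x
    simp
  let Q : Polynomial ℂ := (Matrix.of fun i j : Fin n =>
    Polynomial.C (β i (w j)) + Polynomial.X * Polynomial.C (δ i (w j))).det
  have hQ : ∀ t : ℂ, Q.eval t = (Matrix.of fun i j => (β i + t • δ i) (w j)).det := by
    intro t
    simp only [Q]
    rw [← Polynomial.coe_evalRingHom, RingHom.map_det]
    congr 1
    ext i j
    simp
    exact mul_comm _ _
  have hFQ : F * Q = 0 := by
    apply Polynomial.funext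
    intro t
    rw [Polynomial.eval_mul, hF, hQ, Polynomial.eval_zero]
    by_cases hz : (Matrix.of fun i j => (β i + t • δ i) (w j)).det = 0
    · rw [hz, mul_zero]
    · rw [h (fun i => β i + t • δ i) hz, zero_mul]
  rcases mul_eq_zero.1 hFQ with h1 | h1
  · have h0 := hF 0
    rw [h1, Polynomial.eval_zero] at h0
    have h2 : (fun x : Fin n × Fin m => β x.1 + (0 : ℂ) • δ x.1) = fun x => β x.1 := by
      funext x
      rw [zero_smul, add_zero]
    rw [h2] at h0
    exact h0.symm
  · exfalso
    have := hQ 1
    rw [h1] at this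
    apply hγ
    rw [Polynomial.eval_zero] at this
    rw [this]
    congr 1
    ext i j
    simp [δ]

end Pool.Agent.W448.HHH
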