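import Mathlib
import Pool.Agent.W448.HHHPolar

open Module

namespace Pool.Agent.W448.HHH

variable {V : Type*} [AddCommGroup V] [Module ℂ V]

/-- Change of basis for `(w_1 ∧ … ∧ w_n)^{⊗ d}`. -/
theorem wedgePow_linComb (d : ℕ) {n : ℕ} (w w' : Fin n → V) (B : Matrix (Fin n) (Fin n) ℂ)
    (hw : ∀ j, w j = ∑ i, B i j • w' i) :
    wedgePow d w = (B.det) ^ d • wedgePow d w' := by
  ext φ
  rw [smul_apply, wedgePow_apply, wedgePow_apply, smul_eq_mul]
  have h : ∀ a : Fin d, (Matrix.of fun i j : Fin n => φ (a, i) (w j)).det =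
      B.det * (Matrix.of fun i j : Fin n => φ (a, i) (w' j)).det := by
    intro a
    rw [mul_comm, ← Matrix.det_mul]
    congr 1
    ext i j
    simp only [Matrix.of_apply, Matrix.mul_apply, hw, map_sum, map_smul, smul_eq_mul]
    exact Finset.sum_congr rfl (fun k _ => mul_comm _ _)
  simp only [h, Finset.prod_mul_distrib, Finset.prod_const, Finset.card_univ, Fintype.card_fin]

/-- Permuting the vectors. -/
theorem wedgePow_perm (d : ℕ) {n : ℕ} (w : Fin n → V) (σ : Equiv.Perm (Fin n)) :
    wedgePow d (fun j => w (σ j)) = (((Equiv.Perm.sign σ : ℤˣ) : ℤ) : ℂ) ^ d • wedgePow d w := by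
  ext φ
  rw [smul_apply, wedgePow_apply, wedgePow_apply, smul_eq_mul]
  have h : ∀ a : Fin d, (Matrix.of fun i j : Fin n => φ (a, i) (w (σ j))).det =
      (((Equiv.Perm.sign σ : ℤˣ) : ℤ) : ℂ) *
        (Matrix.of fun i j : Fin n => φ (a, i) (w j)).det := by
    intro a
    rw [← Matrix.det_permute' σ (Matrix.of fun i j : Fin n => φ (a, i) (w j))]
    rfl
  simp only [h, Finset.prod_mul_distrib, Finset.prod_const, Finset.card_univ, Fintype.card_fin]

/-- Abstract vanishing statement. `S w` is a family of elements of `S^n(S^d V)` depending on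
`w` like `(w_1 ∧ … ∧ w_n)^{⊗ d}`, with `d` odd and `n ≥ 2`; then it vanishes. -/
theorem family_eq_zero {n d : ℕ} (hn : 2 ≤ n) (hd : Odd d) (S : (Fin n → V) → Tens V (Fin n × Fin d))
    (hS : ∀ w, S w ∈ symSym V n d)
    (hact : ∀ (g : V ≃ₗ[ℂ] V) (w : Fin n → V), act V g (S w) = S (fun j => g (w j)))
    (hlin : ∀ (w w' : Fin n → V) (c : ℂ), wedgePow d w = c • wedgePow d w' → S w = c • S w')
    (w : Fin n → V) : S w = 0 := by
  classical
  have hd1 : 1 ≤ d := hd.pos
  -- vanishing on dual arguments
  have hdual : ∀ (w' : Fin n → V) (β : Fin n → Dual ℂ V),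
      (∀ i j, β i (w' j) = if i = j then 1 else 0) → S w' (fun x => β x.1) = 0 := by
    intro w' β hβ
    let i0 : Fin n := ⟨0, by omega⟩
    let i1 : Fin n := ⟨1, by omega⟩
    have h01 : i0 ≠ i1 := by
      intro h
      have := congrArg Fin.val h
      simp [i0, i1] at this
    let σ : Equiv.Perm (Fin n) := Equiv.swap i0 i1
    let ψ : Dual ℂ V := β i0 - β i1
    let x : V := w' i0 - w' i1
    have hψx : ψ x = 2 := by
      simp only [ψ, x, LinearMap.sub_apply, map_sub, hβ, if_neg h01, if_neg h01.symm, if_true]
      norm_num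
    let g : V ≃ₗ[ℂ] V := Module.reflection hψx
    have hg : ∀ v, g v = v - ψ v • x := fun v => rfl
    have hgw : ∀ j, g (w' j) = w' (σ j) := by
      intro j
      rw [hg]
      by_cases h0 : j = i0
      · subst h0
        have : ψ (w' i0) = 1 := by
          simp only [ψ, LinearMap.sub_apply, hβ, if_neg h01.symm, if_true, sub_zero]
        rw [this, one_smul]
        simp only [x, σ, Equiv.swap_apply_left, sub_sub_cancel]
      · by_cases h1 : j = i1
        · subst h1
          have : ψ (w' i1) = -1 := by
            simp only [ψ, LinearMap.sub_apply, hβ, if_neg h01, if_true, zero_sub]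
          rw [this]
          simp only [x, σ, Equiv.swap_apply_right, neg_smul, one_smul, sub_neg_eq_add,
            add_sub_cancel]
        · have : ψ (w' j) = 0 := by
            simp only [ψ, LinearMap.sub_apply, hβ, if_neg (Ne.symm h0), if_neg (Ne.symm h1),
              sub_zero]
          rw [this, zero_smul, sub_zero]
          simp only [σ]
          rw [Equiv.swap_apply_of_ne_of_ne h0 h1]
    have hgβ : ∀ i, (β i) ∘ₗ (g : V →ₗ[ℂ] V) = β (σ i) := by
      intro i
      ext v
      have h1 : ((β i) ∘ₗ (g : V →ₗ[ℂ] V)) v = β i v - ψ v * β i x := by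
        rw [LinearMap.comp_apply]
        change β i (g v) = _
        rw [hg, map_sub, map_smul, smul_eq_mul]
      rw [h1]
      by_cases h0 : i = i0
      · subst h0
        have : β i0 x = 1 := by
          simp only [x, map_sub, hβ, if_neg h01, if_true, sub_zero]
        rw [this, mul_one]
        simp only [ψ, σ, Equiv.swap_apply_left, LinearMap.sub_apply, sub_sub_cancel]
      · by_cases h1 : i = i1
        · subst h1
          have : β i1 x = -1 := by
            simp only [x, map_sub, hβ, if_neg h01.symm, if_true, zero_sub]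
          rw [this]
          simp only [ψ, σ, Equiv.swap_apply_right, LinearMap.sub_apply]
          ring
        · have : β i x = 0 := by
            simp only [x, map_sub, hβ, if_neg h0, if_neg h1, sub_zero]
          rw [this, mul_zero, sub_zero]
          simp only [σ]
          rw [Equiv.swap_apply_of_ne_of_ne h0 h1]
    have e1 : act V g (S w') (fun x => β x.1) = S w' (fun x => β x.1) := by
      rw [act_apply]
      have h2 := DFunLike.congr_fun (hS w' σ (fun _ => Equiv.refl _)) (fun x => β x.1)
      rw [permute_apply] at h2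
      rw [← h2]
      congr 1
      funext y
      exact hgβ y.1
    have e2 : act V g (S w') = - S w' := by
      rw [hact]
      have h3 : (fun j => g (w' j)) = fun j => w' (σ j) := funext hgw
      rw [h3]
      have h4 := hlin (fun j => w' (σ j)) w' _ (wedgePow_perm d w' σ)
      rw [h4]
      have h5 : (((Equiv.Perm.sign σ : ℤˣ) : ℤ) : ℂ) = -1 := by
        simp only [σ]
        rw [Equiv.Perm.sign_swap h01]
        simp
      rw [h5, hd.neg_one_pow, neg_one_smul]
    rw [e2] at e1
    have e3 : S w' (fun x => β x.1) = - S w' (fun x => β x.1) := by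
      rw [← neg_apply]
      exact e1.symm
    exact CharZero.eq_neg_self_iff.1 e3
  -- vanishing on generic arguments
  have hgen : ∀ β : Fin n → Dual ℂ V, (Matrix.of fun i j => β i (w j)).det ≠ 0 →
      S w (fun x => β x.1) = 0 := by
    intro β hdet
    let M : Matrix (Fin n) (Fin n) ℂ := Matrix.of fun i j => β i (w j)
    have hM : IsUnit M.det := isUnit_iff_ne_zero.2 hdet
    let w' : Fin n → V := fun j => ∑ k, M⁻¹ k j • w k
    have hβ : ∀ i j, β i (w' j) = if i = j then 1 else 0 := by
      intro i j
      have h1 : β i (w' j) = (M * M⁻¹) i j := by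
        simp only [w', map_sum, map_smul, smul_eq_mul, Matrix.mul_apply]
        refine Finset.sum_congr rfl ?_
        intro k _
        rw [mul_comm]
        rfl
      rw [h1, Matrix.mul_nonsing_inv M hM, Matrix.one_apply]
    have hw : ∀ j, w j = ∑ i, M i j • w' i := by
      intro j
      simp only [w', Finset.smul_sum, smul_smul]
      rw [Finset.sum_comm]
      have h2 : ∀ k, ∑ i, (M i j * M⁻¹ k i) • w k = ((M⁻¹ * M) k j) • w k := by
        intro k
        rw [← Finset.sum_smul, Matrix.mul_apply]
        congr 1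
        exact Finset.sum_congr rfl (fun i _ => mul_comm _ _)
      simp only [h2, Matrix.nonsing_inv_mul M hM, Matrix.one_apply, ite_smul, one_smul, zero_smul]
      simp
    have h3 := hlin w w' _ (wedgePow_linComb d w w' M hw)
    rw [h3, smul_apply, hdual w' β hβ, smul_zero]
  by_cases hex : ∃ γ : Fin n → Dual ℂ V, (Matrix.of fun i j => γ i (w j)).det ≠ 0
  · obtain ⟨γ, hγ⟩ := hex
    exact eq_zero_of_diag (hS w) (fun β => diag_of_generic w γ hγ hgen β)
  · push Not at hex
    have h0 : wedgePow d w = (0 : ℂ) • wedgePow d w := by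
      rw [zero_smul]
      ext φ
      rw [wedgePow_apply]
      refine Finset.prod_eq_zero (Finset.mem_univ (⟨0, hd1⟩ : Fin d)) ?_
      exact hex (fun i => φ (⟨0, hd1⟩, i))
    rw [hlin w w 0 h0, zero_smul]

/-- For `d` odd and `n ≥ 2` the `S_{(d^n)} V`-isotypic component of `S^d(S^n V)` is contained
in the kernel of `h_{d,n}`. -/
theorem rectIsotypic_le_ker (V : Type*) [AddCommGroup V] [Module ℂ V] {d n : ℕ} (hd : Odd d)
    (hn : 2 ≤ n) : rectIsotypic V d n ≤ LinearMap.ker (hhh V d n) := by
  refine iSup_le ?_
  rintro ⟨e, -, he⟩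
  rintro _ ⟨T, rfl⟩
  rw [LinearMap.mem_ker]
  let U : (Fin n → V) → rectSchur V d n := fun w =>
    ⟨wedgePow d w, Submodule.subset_span ⟨w, rfl⟩⟩
  let S : (Fin n → V) → Tens V (Fin n × Fin d) := fun w =>
    ((hhh V d n (e (U w)) : symSym V n d) : Tens V (Fin n × Fin d))
  have hSzero : ∀ w, S w = 0 := by
    refine family_eq_zero hn hd S (fun w => Subtype.property _) ?_ ?_
    · intro g w
      have h1 : act V g (S w) = hhhTens V d n (act V g ((e (U w) : symSym V d n) :
          Tens V (Fin d × Fin n))) := act_hhhTens g d n _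
      have h2 : (e (U (fun j => g (w j)))) = symAct V d n g (e (U w)) := by
        have := LinearMap.congr_fun (he g) (U w)
        simp only [LinearMap.comp_apply] at this
        rw [← this]
        congr 1
      rw [h1]
      simp only [S]
      rw [h2]
      rfl
    · intro w w' c h
      have h1 : U w = c • U w' := Subtype.ext h
      simp only [S]
      rw [h1, map_smul, map_smul]
      rfl
  obtain ⟨T, hT⟩ := T
  have key : ∀ (T : Tens V (Fin d × Fin n)) (hT : T ∈ rectSchur V d n),
      hhh V d n (e ⟨T, hT⟩) = 0 := by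
    intro T hT
    refine Submodule.span_induction (p := fun T hT => hhh V d n (e ⟨T, hT⟩) = 0) ?_ ?_ ?_ ?_ hT
    · rintro _ ⟨w, rfl⟩
      exact Subtype.ext (hSzero w)
    · have : (⟨0, Submodule.zero_mem _⟩ : rectSchur V d n) = 0 := rfl
      rw [this, map_zero, map_zero]
    · intro x y hx hy h1 h2
      have : (⟨x + y, Submodule.add_mem _ hx hy⟩ : rectSchur V d n) = ⟨x, hx⟩ + ⟨y, hy⟩ := rfl
      rw [this, map_add, map_add, h1, h2, add_zero]
    · intro c x hx h1
      have : (⟨c • x, Submodule.smul_mem _ c hx⟩ : rectSchur V d n) = c • ⟨x, hx⟩ := rfl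
      rw [this, map_smul, map_smul, h1, smul_zero]
  exact key T hT

end Pool.Agent.W448.HHH
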