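import Mathlib
import Pool.Agent.W448.HHHVanish
import Pool.Agent.W448.HHHSum

open Module

namespace Pool.Agent.W448.HHH

variable {V : Type*} [AddCommGroup V] [Module ℂ V]

/-- The 28 flags of the complement of the Fano plane: `(B, i) ↦ (B + dset i, i)`. -/
def flagEquiv : Fin 7 × Fin 4 ≃ Fin 7 × Fin 4 where
  toFun x := (x.1 + dset x.2, x.2)
  invFun x := (x.1 - dset x.2, x.2)
  left_inv x := by simp
  right_inv x := by simp

/-- An equivariant map `V^{⊗(k × m)} → S^k(S^m V)` attached to a permutation `E` of the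
positions. -/
noncomputable def shuffle (V : Type*) [AddCommGroup V] [Module ℂ V] {k m : ℕ}
    (E : Fin k × Fin m ≃ Fin k × Fin m) :
    Tens V (Fin k × Fin m) →ₗ[ℂ] Tens V (Fin k × Fin m) :=
  wreathSum V k m ∘ₗ permute V E

theorem shuffle_apply {k m : ℕ} (E : Fin k × Fin m ≃ Fin k × Fin m)
    (T : Tens V (Fin k × Fin m)) (φ : Fin k × Fin m → Dual ℂ V) :
    shuffle V E T φ = ∑ p : Equiv.Perm (Fin k) × (Fin k → Equiv.Perm (Fin m)),
      T (fun x => φ (Equiv.prodShear p.1 p.2 (E x))) := by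
  rw [shuffle, LinearMap.comp_apply, wreathSum_apply, sum_apply]
  rfl

theorem shuffle_mem {k m : ℕ} (E : Fin k × Fin m ≃ Fin k × Fin m)
    (T : Tens V (Fin k × Fin m)) : shuffle V E T ∈ symSym V k m :=
  wreathSum_mem _ _ _

theorem act_shuffle {k m : ℕ} (E : Fin k × Fin m ≃ Fin k × Fin m) (g : V ≃ₗ[ℂ] V)
    (T : Tens V (Fin k × Fin m)) :
    act V g (shuffle V E T) = shuffle V E (act V g T) := by
  simp only [shuffle, LinearMap.comp_apply, wreathSum_apply, map_sum]
  rfl

/-- The restriction of `shuffle` to `S_{(k^m)} V`. -/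
noncomputable def shuffleEmb (V : Type*) [AddCommGroup V] [Module ℂ V] {k m : ℕ}
    (E : Fin k × Fin m ≃ Fin k × Fin m) : rectSchur V k m →ₗ[ℂ] symSym V k m :=
  LinearMap.codRestrict (symSym V k m) (shuffle V E ∘ₗ (rectSchur V k m).subtype)
    (fun T => shuffle_mem E (T : Tens V (Fin k × Fin m)))

theorem shuffleEmb_equivariant {k m : ℕ} (E : Fin k × Fin m ≃ Fin k × Fin m) (g : V ≃ₗ[ℂ] V) :
    shuffleEmb V E ∘ₗ rectAct V k m g = symAct V k m g ∘ₗ shuffleEmb V E := by
  apply LinearMap.ext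
  intro T
  apply Subtype.ext
  exact (act_shuffle E g (T : Tens V (Fin k × Fin m))).symm

/-- Evaluation of `shuffle E ((w_1 ∧ … ∧ w_m)^{⊗ k})` at a block-constant argument. -/
theorem shuffle_wedgePow_apply {k m : ℕ} (E : Fin k × Fin m ≃ Fin k × Fin m) (w : Fin m → V)
    (φ : Fin k → Dual ℂ V) :
    shuffle V E (wedgePow k w) (fun x => φ x.1) =
      (Fintype.card (Fin k → Equiv.Perm (Fin m)) : ℂ) *
      ∑ τ : Equiv.Perm (Fin k), ∏ B : Fin k,
        (Matrix.of fun i j : Fin m => φ (τ (E (B, i)).1) (w j)).det := by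
  rw [shuffle_apply, Fintype.sum_prod_type, Finset.mul_sum]
  refine Finset.sum_congr rfl ?_
  intro τ _
  simp only [wedgePow_apply, Equiv.prodShear_apply]
  rw [Finset.sum_const, Finset.card_univ, nsmul_eq_mul]

/-- If the image of `(w_1 ∧ … ∧ w_m)^{⊗ k}` under `shuffle E` is nonzero when `w` is a basis of
`V`, then the isotypic component is nonzero. -/
theorem rectIsotypic_ne_bot_of_shuffle {k m : ℕ} (E : Fin k × Fin m ≃ Fin k × Fin m)
    (b : Basis (Fin m) ℂ V) (hne : shuffle V E (wedgePow k b) ≠ 0) :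
    rectIsotypic V k m ≠ ⊥ := by
  classical
  let U : rectSchur V k m := ⟨wedgePow k b, Submodule.subset_span ⟨b, rfl⟩⟩
  have hspan : ∀ (T : Tens V (Fin k × Fin m)), T ∈ rectSchur V k m →
      ∃ c : ℂ, T = c • wedgePow k b := by
    intro T hT
    have : rectSchur V k m ≤ Submodule.span ℂ {wedgePow k (b : Fin m → V)} := by
      rw [rectSchur, Submodule.span_le]
      rintro _ ⟨w, rfl⟩
      rw [SetLike.mem_coe, Submodule.mem_span_singleton]
      refine ⟨((b.toMatrix w).det) ^ k, ?_⟩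
      refine (wedgePow_linComb k w b (b.toMatrix w) ?_).symm
      intro j
      simp only [Basis.toMatrix_apply]
      exact (b.sum_repr (w j)).symm
    obtain ⟨c, hc⟩ := Submodule.mem_span_singleton.1 (this hT)
    exact ⟨c, hc.symm⟩
  have hinj : Function.Injective (shuffleEmb V E) := by
    rw [← LinearMap.ker_eq_bot, LinearMap.ker_eq_bot']
    rintro ⟨T, hT⟩ h
    obtain ⟨c, rfl⟩ := hspan T hT
    have h1 : shuffle V E (c • wedgePow k b) = 0 := congrArg Subtype.val h
    rw [map_smul] at h1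
    rcases smul_eq_zero.1 h1 with h2 | h2
    · apply Subtype.ext
      change c • wedgePow k b = 0
      rw [h2, zero_smul]
    · exact absurd h2 hne
  intro hbot
  have hle : LinearMap.range (shuffleEmb V E) ≤ rectIsotypic V k m :=
    le_iSup (fun e : {e : rectSchur V k m →ₗ[ℂ] symSym V k m //
      Function.Injective e ∧ ∀ g : V ≃ₗ[ℂ] V, e ∘ₗ rectAct V k m g = symAct V k m g ∘ₗ e} =>
      LinearMap.range e.1) ⟨shuffleEmb V E, hinj, fun g => shuffleEmb_equivariant E g⟩
  rw [hbot, le_bot_iff, LinearMap.range_eq_bot] at hle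
  apply hne
  have := congrArg Subtype.val (LinearMap.congr_fun hle U)
  exact this

/-- If `w : Fin 4 → V` has a dual family then the image of `(w_1 ∧ … ∧ w_4)^{⊗ 7}` is nonzero. -/
theorem shuffle_flag_ne_zero (w : Fin 4 → V) (β : Fin 4 → Dual ℂ V)
    (hβ : ∀ i j, β i (w j) = if i = j then 1 else 0) :
    shuffle V flagEquiv (wedgePow 7 w) ≠ 0 := by
  intro h
  let φ : Fin 7 → Dual ℂ V := fun a => ∑ k : Fin 4, (vec a k : ℂ) • β k
  have hφ : ∀ a j, φ a (w j) = (vec a j : ℂ) := by
    intro a j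
    simp only [φ, LinearMap.sum_apply, LinearMap.smul_apply, hβ, smul_eq_mul, mul_ite, mul_one,
      mul_zero]
    simp
  have h1 := DFunLike.congr_fun h (fun x => φ x.1)
  rw [shuffle_wedgePow_apply] at h1
  have h5 : ∀ (τ : Equiv.Perm (Fin 7)) (B : Fin 7),
      (Matrix.of fun i j : Fin 4 => φ (τ (flagEquiv (B, i)).1) (w j)).det =
        (((Matrix.of fun i j : Fin 4 => vec (τ (B + dset i)) j).det : ℤ) : ℂ) := by
    intro τ B
    have h6 : (((Matrix.of fun i j : Fin 4 => vec (τ (B + dset i)) j).det : ℤ) : ℂ) =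
        ((Int.castRingHom ℂ).mapMatrix (Matrix.of fun i j : Fin 4 =>
          vec (τ (B + dset i)) j)).det := by
      rw [← RingHom.map_det]
      rfl
    rw [h6]
    refine congrArg Matrix.det ?_
    refine Matrix.ext ?_
    intro i j
    rw [Matrix.of_apply, hφ]
    rfl
  have h6 : ∀ τ : Equiv.Perm (Fin 7), ∏ B : Fin 7,
      (Matrix.of fun i j : Fin 4 => φ (τ (flagEquiv (B, i)).1) (w j)).det =
        ((blockProd (fun x => τ x) : ℤ) : ℂ) := by
    intro τ
    rw [blockProd, Int.cast_prod]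
    exact Finset.prod_congr rfl (fun B _ => h5 τ B)
  simp only [h6] at h1
  rw [← Int.cast_sum] at h1
  rcases mul_eq_zero.1 h1 with h3 | h3
  · have h7 : Fintype.card (Fin 7 → Equiv.Perm (Fin 4)) = 0 := Nat.cast_eq_zero.1 h3
    exact Fintype.card_ne_zero h7
  · exact perm_sum_ne_zero (Int.cast_eq_zero.1 h3)

theorem rectIsotypic_ne_bot (hV : finrank ℂ V = 4) : rectIsotypic V 7 4 ≠ ⊥ := by
  classical
  have : FiniteDimensional ℂ V := FiniteDimensional.of_finrank_pos (by omega)
  let b : Basis (Fin 4) ℂ V := finBasisOfFinrankEq ℂ V hV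
  refine rectIsotypic_ne_bot_of_shuffle flagEquiv b ?_
  refine shuffle_flag_ne_zero b (fun i => b.coord i) ?_
  intro i j
  rw [Basis.coord_apply, Basis.repr_self, Finsupp.single_apply]
  by_cases hij : i = j
  · simp [hij]
  · simp [hij, Ne.symm hij]

end Pool.Agent.W448.HHH
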