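import Mathlib
import Pool.Agent.W448.HHHNonzero

open Module

namespace Pool.Agent.W448.HHH

variable {V : Type*} [AddCommGroup V] [Module ℂ V]

/-- Elements of `S_{(k^m)} V` are alternating inside each block. -/
theorem rect_alt {k m : ℕ} (ρ : Fin k → Equiv.Perm (Fin m)) {T : Tens V (Fin k × Fin m)}
    (hT : T ∈ rectSchur V k m) :
    permute V (Equiv.prodShear (Equiv.refl (Fin k)) ρ) T =
      (∏ a, (((Equiv.Perm.sign (ρ a) : ℤˣ) : ℤ) : ℂ)) • T := by
  refine Submodule.span_induction (p := fun T _ =>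
    permute V (Equiv.prodShear (Equiv.refl (Fin k)) ρ) T =
      (∏ a, (((Equiv.Perm.sign (ρ a) : ℤˣ) : ℤ) : ℂ)) • T) ?_ ?_ ?_ ?_ hT
  · rintro _ ⟨w, rfl⟩
    ext φ
    rw [permute_apply, wedgePow_apply, smul_apply, wedgePow_apply, smul_eq_mul,
      ← Finset.prod_mul_distrib]
    refine Finset.prod_congr rfl ?_
    intro a _
    exact Matrix.det_permute (ρ a) (Matrix.of fun i j : Fin m => φ (a, i) (w j))
  · rw [map_zero, smul_zero]
  · intro x y _ _ hx hy
    rw [map_add, smul_add, hx, hy]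
  · intro c x _ hx
    rw [map_smul, hx, smul_comm]

/-- The family of functionals attached to a matrix `c` of coordinates (conjugated). -/
noncomputable def bv {ι : Type*} [Fintype ι] (b : Basis ι ℂ V) {m : ℕ} (c : Fin m → ι → ℂ) :
    Fin m → Dual ℂ V :=
  fun i => ∑ l, (starRingEnd ℂ) (c i l) • b.coord l

theorem pairing_wedgePow {ι : Type*} [Fintype ι] [DecidableEq ι] (b : Basis ι ℂ V) {k m : ℕ}
    (c : Fin m → ι → ℂ) {T : Tens V (Fin k × Fin m)} (hT : T ∈ rectSchur V k m)
    (w : Fin m → V) (hw : ∀ i l, b.coord l (w i) = c i l) :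
    ∑ I : Fin k × Fin m → ι, (starRingEnd ℂ) (wedgePow k w (fun x => b.coord (I x))) *
      T (fun x => b.coord (I x)) =
    (Fintype.card (Fin k → Equiv.Perm (Fin m)) : ℂ) * T (fun x => bv b c x.2) := by
  have h1 : ∀ I : Fin k × Fin m → ι, (starRingEnd ℂ) (wedgePow k w (fun x => b.coord (I x))) =
      ∑ ρ : Fin k → Equiv.Perm (Fin m), (∏ a, (((Equiv.Perm.sign (ρ a) : ℤˣ) : ℤ) : ℂ)) *
        ∏ x : Fin k × Fin m, (starRingEnd ℂ) (c (ρ x.1 x.2) (I x)) := by
    intro I
    rw [wedgePow_apply, map_prod]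
    have h2 : ∀ a : Fin k, (starRingEnd ℂ) (Matrix.of fun i j : Fin m =>
        b.coord (I (a, i)) (w j)).det = ∑ σ : Equiv.Perm (Fin m),
          (((Equiv.Perm.sign σ : ℤˣ) : ℤ) : ℂ) * ∏ i, (starRingEnd ℂ) (c (σ i) (I (a, i))) := by
      intro a
      rw [← Matrix.det_transpose, Matrix.det_apply', map_sum]
      refine Finset.sum_congr rfl ?_
      intro σ _
      rw [map_mul, map_prod]
      congr 1
      · simp
      · refine Finset.prod_congr rfl ?_
        intro i _
        rw [Matrix.transpose_apply, Matrix.of_apply, hw]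
    simp only [h2]
    rw [Finset.prod_univ_sum, Fintype.piFinset_univ]
    refine Finset.sum_congr rfl ?_
    intro ρ _
    rw [Finset.prod_mul_distrib, Fintype.prod_prod_type]
  simp only [h1, Finset.sum_mul]
  rw [Finset.sum_comm]
  have h3 : ∀ ρ : Fin k → Equiv.Perm (Fin m),
      ∑ I : Fin k × Fin m → ι, ((∏ a, (((Equiv.Perm.sign (ρ a) : ℤˣ) : ℤ) : ℂ)) *
        ∏ x : Fin k × Fin m, (starRingEnd ℂ) (c (ρ x.1 x.2) (I x))) *
        T (fun x => b.coord (I x)) = T (fun x => bv b c x.2) := by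
    intro ρ
    have h4 := DFunLike.congr_fun (rect_alt ρ hT) (fun x => bv b c x.2)
    rw [permute_apply, smul_apply, smul_eq_mul] at h4
    have h5 : T (fun i => bv b c (Equiv.prodShear (Equiv.refl (Fin k)) ρ i).2) =
        ∑ I : Fin k × Fin m → ι,
          (∏ x : Fin k × Fin m, (starRingEnd ℂ) (c (ρ x.1 x.2) (I x))) *
            T (fun x => b.coord (I x)) := by
      simp only [bv, Equiv.prodShear_apply]
      rw [MultilinearMap.map_sum]
      simp only [MultilinearMap.map_smul_univ, smul_eq_mul]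
    rw [h5] at h4
    have h6 : (∏ a, (((Equiv.Perm.sign (ρ a) : ℤˣ) : ℤ) : ℂ)) *
        (∏ a, (((Equiv.Perm.sign (ρ a) : ℤˣ) : ℤ) : ℂ)) = 1 := by
      rw [← Finset.prod_mul_distrib]
      refine Finset.prod_eq_one ?_
      intro a _
      rw [← Int.cast_mul, Int.units_coe_mul_self, Int.cast_one]
    simp only [mul_assoc]
    rw [← Finset.mul_sum, h4, ← mul_assoc, h6, one_mul]
  simp only [h3]
  rw [Finset.sum_const, Finset.card_univ, nsmul_eq_mul]

/-- An element of `S_{(k^m)} V` is zero if it vanishes at all arguments `(a, i) ↦ β_i`. -/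
theorem rect_eq_zero {ι : Type*} [Fintype ι] [DecidableEq ι] (b : Basis ι ℂ V) {k m : ℕ}
    {T : Tens V (Fin k × Fin m)} (hT : T ∈ rectSchur V k m)
    (h : ∀ β : Fin m → Dual ℂ V, T (fun x => β x.2) = 0) : T = 0 := by
  have h1 : ∀ S ∈ rectSchur V k m, ∑ I : Fin k × Fin m → ι,
      (starRingEnd ℂ) (S (fun x => b.coord (I x))) * T (fun x => b.coord (I x)) = 0 := by
    intro S hS
    refine Submodule.span_induction (p := fun S _ => ∑ I : Fin k × Fin m → ι,
      (starRingEnd ℂ) (S (fun x => b.coord (I x))) * T (fun x => b.coord (I x)) = 0)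
      ?_ ?_ ?_ ?_ hS
    · rintro _ ⟨w, rfl⟩
      dsimp only
      rw [pairing_wedgePow b (fun i l => b.coord l (w i)) hT w (fun i l => rfl), h, mul_zero]
    · simp
    · intro x y _ _ hx hy
      simp only [add_apply, map_add, add_mul, Finset.sum_add_distrib, hx, hy, add_zero]
    · intro c x _ hx
      simp only [smul_apply, smul_eq_mul, map_mul, mul_assoc]
      rw [← Finset.mul_sum, hx, mul_zero]
  have h2 := h1 T hT
  refine Basis.ext_multilinear (fun _ => b.dualBasis) ?_
  intro I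
  have h3 : ∑ I : Fin k × Fin m → ι, ‖T (fun x => b.coord (I x))‖ ^ 2 = 0 := by
    have h4 : ((∑ I : Fin k × Fin m → ι, ‖T (fun x => b.coord (I x))‖ ^ 2 : ℝ) : ℂ) = 0 := by
      rw [← h2]
      push_cast
      refine Finset.sum_congr rfl ?_
      intro I _
      rw [Complex.conj_mul']
    exact_mod_cast h4
  have h5 := (Finset.sum_eq_zero_iff_of_nonneg (fun I _ => by positivity)).1 h3 I
    (Finset.mem_univ I)
  have h6 : T (fun x => b.coord (I x)) = 0 := by
    rwa [sq_eq_zero_iff, norm_eq_zero] at h5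
  simp only [Basis.coe_dualBasis]
  rw [h6]
  rfl

end Pool.Agent.W448.HHH
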