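import Mathlib
import Pool.Agent.W448.HHHInj

open Module

namespace Pool.Agent.W448.HHH

variable {V : Type*} [AddCommGroup V] [Module ℂ V]

/-- The constant attached to an arrangement `E` and coefficients `v`. -/
noncomputable def shuffleConst {k m : ℕ} (E : Fin k × Fin m ≃ Fin k × Fin m)
    (v : Fin k → Fin m → ℂ) : ℂ :=
  (Fintype.card (Fin k → Equiv.Perm (Fin m)) : ℂ) *
      ∑ τ : Equiv.Perm (Fin k), ∏ B : Fin k,
        (Matrix.of fun i j : Fin m => v (τ (E (B, i)).1) j).det

theorem shuffle_rect_apply {k m : ℕ} (E : Fin k × Fin m ≃ Fin k × Fin m)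
    (v : Fin k → Fin m → ℂ) (β : Fin m → Dual ℂ V) {T : Tens V (Fin k × Fin m)}
    (hT : T ∈ rectSchur V k m) :
    shuffle V E T (fun x => ∑ l, v x.1 l • β l) = shuffleConst E v * T (fun x => β x.2) := by
  refine Submodule.span_induction (p := fun T _ =>
    shuffle V E T (fun x => ∑ l, v x.1 l • β l) = shuffleConst E v * T (fun x => β x.2))
    ?_ ?_ ?_ ?_ hT
  · rintro _ ⟨w, rfl⟩
    have h1 := shuffle_wedgePow_apply E w (fun a => ∑ l, v a l • β l)
    have h2 : ∀ (τ : Equiv.Perm (Fin k)) (B : Fin k),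
        (Matrix.of fun i j : Fin m => (∑ l, v (τ (E (B, i)).1) l • β l) (w j)).det =
        (Matrix.of fun i j : Fin m => v (τ (E (B, i)).1) j).det *
          (Matrix.of fun i j : Fin m => β i (w j)).det := by
      intro τ B
      rw [← Matrix.det_mul]
      refine congrArg Matrix.det (Matrix.ext ?_)
      intro i j
      rw [Matrix.of_apply, Matrix.mul_apply, LinearMap.sum_apply]
      rfl
    simp only [h2, Finset.prod_mul_distrib] at h1
    rw [h1, shuffleConst, wedgePow_apply, ← Finset.sum_mul]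
    ring
  · rw [map_zero]
    simp
  · intro x y _ _ hx hy
    rw [map_add, add_apply, add_apply, hx, hy, mul_add]
  · intro c x _ hx
    rw [map_smul, smul_apply, smul_apply, hx, smul_eq_mul, smul_eq_mul]
    ring

/-- Nonvanishing of the isotypic component from nonvanishing of the constant. -/
theorem rectIsotypic_ne_bot_of_const [FiniteDimensional ℂ V] {k m : ℕ}
    (E : Fin k × Fin m ≃ Fin k × Fin m) (v : Fin k → Fin m → ℂ) (hv : shuffleConst E v ≠ 0)
    (hm : m ≤ finrank ℂ V) : rectIsotypic V k m ≠ ⊥ := by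
  classical
  let b := finBasis ℂ V
  have hinj : Function.Injective (shuffleEmb V E) := by
    rw [← LinearMap.ker_eq_bot, LinearMap.ker_eq_bot']
    rintro ⟨T, hT⟩ h
    have h1 : shuffle V E T = 0 := congrArg Subtype.val h
    apply Subtype.ext
    refine rect_eq_zero b hT ?_
    intro β
    have h2 := shuffle_rect_apply E v β hT
    rw [h1] at h2
    exact (mul_eq_zero.1 h2.symm).resolve_left hv
  let w : Fin m → V := fun i => b (Fin.castLE hm i)
  let β : Fin m → Dual ℂ V := fun i => b.coord (Fin.castLE hm i)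
  let U : rectSchur V k m := ⟨wedgePow k w, Submodule.subset_span ⟨w, rfl⟩⟩
  have hU : U ≠ 0 := by
    intro h
    have h1 : wedgePow k w = 0 := congrArg Subtype.val h
    have h2 := DFunLike.congr_fun h1 (fun x => β x.2)
    rw [wedgePow_apply] at h2
    have h3 : (Matrix.of fun i j : Fin m => β i (w j)) = 1 := by
      refine Matrix.ext ?_
      intro i j
      rw [Matrix.of_apply, Matrix.one_apply]
      simp only [β, w, Basis.coord_apply, Basis.repr_self, Finsupp.single_apply]
      by_cases hij : i = j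
      · simp [hij]
      · rw [if_neg hij, if_neg]
        intro h
        exact hij ((Fin.castLE_injective hm) h).symm
    simp only [h3, Matrix.det_one, Finset.prod_const_one] at h2
    exact one_ne_zero h2
  intro hbot
  have hle : LinearMap.range (shuffleEmb V E) ≤ rectIsotypic V k m :=
    le_iSup (fun e : {e : rectSchur V k m →ₗ[ℂ] symSym V k m //
      Function.Injective e ∧ ∀ g : V ≃ₗ[ℂ] V, e ∘ₗ rectAct V k m g = symAct V k m g ∘ₗ e} =>
      LinearMap.range e.1) ⟨shuffleEmb V E, hinj, fun g => shuffleEmb_equivariant E g⟩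
  rw [hbot, le_bot_iff, LinearMap.range_eq_bot] at hle
  apply hU
  apply hinj
  rw [map_zero, hle]
  rfl

/-- The constant for the complement of the Fano plane is nonzero. -/
theorem shuffleConst_flag_ne_zero :
    shuffleConst flagEquiv (fun a l => ((vec a l : ℤ) : ℂ)) ≠ 0 := by
  intro h1
  rw [shuffleConst] at h1
  have h5 : ∀ (τ : Equiv.Perm (Fin 7)) (B : Fin 7),
      (Matrix.of fun i j : Fin 4 => ((vec (τ (flagEquiv (B, i)).1) j : ℤ) : ℂ)).det =
        (((Matrix.of fun i j : Fin 4 => vec (τ (B + dset i)) j).det : ℤ) : ℂ) := by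
    intro τ B
    have h6 : (((Matrix.of fun i j : Fin 4 => vec (τ (B + dset i)) j).det : ℤ) : ℂ) =
        ((Int.castRingHom ℂ).mapMatrix (Matrix.of fun i j : Fin 4 =>
          vec (τ (B + dset i)) j)).det := by
      rw [← RingHom.map_det]
      rfl
    rw [h6]
    refine congrArg Matrix.det ?_
    refine Matrix.ext ?_
    intro i j
    rw [Matrix.of_apply]
    rfl
  have h6 : ∀ τ : Equiv.Perm (Fin 7), ∏ B : Fin 7,
      (Matrix.of fun i j : Fin 4 => ((vec (τ (flagEquiv (B, i)).1) j : ℤ) : ℂ)).det =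
        ((blockProd (fun x => τ x) : ℤ) : ℂ) := by
    intro τ
    rw [blockProd, Int.cast_prod]
    exact Finset.prod_congr rfl (fun B _ => h5 τ B)
  simp only [h6] at h1
  rw [← Int.cast_sum] at h1
  rcases mul_eq_zero.1 h1 with h3 | h3
  · have h7 : Fintype.card (Fin 7 → Equiv.Perm (Fin 4)) = 0 := Nat.cast_eq_zero.1 h3
    exact Fintype.card_ne_zero h7
  · exact perm_sum_ne_zero (Int.cast_eq_zero.1 h3)

/-- The `S_{(7^4)} V`-isotypic component of `S^7(S^4 V)` is nonzero if `dim V ≥ 4`. -/
theorem rectIsotypic_seven_four_ne_bot [FiniteDimensional ℂ V] (hV : 4 ≤ finrank ℂ V) :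
    rectIsotypic V 7 4 ≠ ⊥ :=
  rectIsotypic_ne_bot_of_const flagEquiv _ shuffleConst_flag_ne_zero hV

end Pool.Agent.W448.HHH
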