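import Mathlib
import Pool.Agent.W448.HHHDefs

open Module

namespace Pool.Agent.W448.HHH

variable {V : Type*} [AddCommGroup V] [Module ℂ V]

/-- The pure tensor `⊗_i y_i`. -/
noncomputable def pureT {ι : Type*} [Fintype ι] (y : ι → V) : Tens V ι :=
  (MultilinearMap.mkPiAlgebra ℂ ι ℂ).compLinearMap (fun i => Dual.eval ℂ V (y i))

theorem pureT_apply {ι : Type*} [Fintype ι] (y : ι → V) (φ : ι → Dual ℂ V) :
    pureT y φ = ∏ i, φ i (y i) := rfl

/-- Sanity check: `h_{d,n}(x_1^n ⋯ x_d^n) = (x_1 ⋯ x_d)^n`. Here `x_1^n ⋯ x_d^n` is the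
block-symmetrization of `x_1^{⊗ n} ⊗ … ⊗ x_d^{⊗ n}` and `(x_1 ⋯ x_d)^n` is the
symmetrization inside each block of `(x_1 ⊗ … ⊗ x_d)^{⊗ n}`. -/
theorem hhhTens_powers (d n : ℕ) (x : Fin d → V) :
    hhhTens V d n (symBlocks V d n (pureT (fun p => x p.1))) =
      symInner V n d (pureT (fun p => x p.2)) := by
  ext φ
  have hd0 : (d.factorial : ℂ) ≠ 0 := by exact_mod_cast d.factorial_ne_zero
  have hn0 : (n.factorial : ℂ) ≠ 0 := by exact_mod_cast n.factorial_ne_zero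
  let A : ℂ := ∑ ρ : Fin n → Equiv.Perm (Fin d), ∏ p : Fin n × Fin d, φ (p.1, ρ p.1 p.2) (x p.2)
  have hR : symInner V n d (pureT (fun p => x p.2)) φ = (((d.factorial : ℂ) ^ n)⁻¹) * A := by
    rw [symInner, LinearMap.smul_apply, smul_apply, LinearMap.sum_apply, sum_apply, smul_eq_mul]
    rfl
  have hT : ∀ ψ : Fin d × Fin n → Dual ℂ V, symBlocks V d n (pureT (fun p => x p.1)) ψ =
      (d.factorial : ℂ)⁻¹ * ∑ τ : Equiv.Perm (Fin d), ∏ p : Fin d × Fin n,
        ψ (τ p.1, p.2) (x p.1) := by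
    intro ψ
    rw [symBlocks, LinearMap.smul_apply, smul_apply, LinearMap.sum_apply, sum_apply, smul_eq_mul]
    rfl
  rw [hR, hhhTens_eq, smul_apply, wreathSum_apply, sum_apply, smul_eq_mul, Fintype.sum_prod_type]
  have h1 : ∀ (τ' : Equiv.Perm (Fin n)) (ρ : Fin n → Equiv.Perm (Fin d)),
      permute V (Equiv.prodShear τ' ρ) (regroup V d n
        (symBlocks V d n (pureT (fun p => x p.1)))) φ =
      (d.factorial : ℂ)⁻¹ * ∑ τ : Equiv.Perm (Fin d), ∏ p : Fin n × Fin d,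
        φ (τ' p.1, ρ p.1 (τ p.2)) (x p.2) := by
    intro τ' ρ
    rw [permute_apply, regroup, permute_apply, hT]
    congr 1
    refine Finset.sum_congr rfl ?_
    intro τ _
    exact Fintype.prod_equiv (Equiv.prodComm _ _) _ _ (fun p => rfl)
  simp only [h1]
  have h2 : ∀ (τ' : Equiv.Perm (Fin n)) (τ : Equiv.Perm (Fin d)),
      ∑ ρ : Fin n → Equiv.Perm (Fin d), ∏ p : Fin n × Fin d,
        φ (τ' p.1, ρ p.1 (τ p.2)) (x p.2) = A := by
    intro τ' τ
    have h3 : ∑ ρ : Fin n → Equiv.Perm (Fin d), ∏ p : Fin n × Fin d,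
        φ (τ' p.1, ρ p.1 (τ p.2)) (x p.2) =
        ∑ ρ : Fin n → Equiv.Perm (Fin d), ∏ p : Fin n × Fin d,
          φ (τ' p.1, ρ p.1 p.2) (x p.2) :=
      Fintype.sum_equiv (Equiv.piCongrRight (fun _ => Equiv.mulRight τ)) _ _ (fun ρ => rfl)
    rw [h3]
    have h4 : ∑ ρ : Fin n → Equiv.Perm (Fin d), ∏ p : Fin n × Fin d,
          φ (τ' p.1, ρ p.1 p.2) (x p.2) =
        ∑ ρ : Fin n → Equiv.Perm (Fin d), ∏ p : Fin n × Fin d,
          φ (τ' p.1, ρ (τ' p.1) p.2) (x p.2) := by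
      refine Fintype.sum_equiv (Equiv.arrowCongr τ' (Equiv.refl _)) _ _ ?_
      intro ρ
      refine Finset.prod_congr rfl ?_
      intro p _
      change _ = φ (τ' p.1, ρ (τ'.symm (τ' p.1)) p.2) (x p.2)
      rw [Equiv.symm_apply_apply]
    rw [h4]
    refine Finset.sum_congr rfl ?_
    intro ρ _
    exact Fintype.prod_equiv (Equiv.prodCongr τ' (Equiv.refl _)) _ _ (fun p => rfl)
  simp only [← Finset.mul_sum]
  have h5 : ∀ τ' : Equiv.Perm (Fin n), ∑ ρ : Fin n → Equiv.Perm (Fin d),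
      ∑ τ : Equiv.Perm (Fin d), ∏ p : Fin n × Fin d,
        φ (τ' p.1, ρ p.1 (τ p.2)) (x p.2) = (d.factorial : ℂ) * A := by
    intro τ'
    rw [Finset.sum_comm]
    simp only [h2]
    rw [Finset.sum_const, Finset.card_univ, nsmul_eq_mul, Fintype.card_perm, Fintype.card_fin]
  simp only [h5]
  rw [Finset.sum_const, Finset.card_univ, nsmul_eq_mul, Fintype.card_perm, Fintype.card_fin]
  field_simp

end Pool.Agent.W448.HHH
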