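import Mathlib
import Pool.Agent.W448.HHHMain
import Pool.Agent.W448.HHHSanity

/-!
# The definitions used in the statement

* `Tens V ι` is `V^{⊗ι}`, as multilinear maps `(V^*)^ι → ℂ`;
* `relabel`, `glAct`: the two actions;
* `IsSymSym T`: the tensor `T ∈ V^{⊗(k × m)}` lies in `S^k(S^m V)`;
* `hhhMap d n`: the Hermite-Hadamard-Howe map;
* `wedgePow d w`: the tensor `(w_1 ∧ … ∧ w_n)^{⊗ d}`;
* `IsRect T`: `T` lies in the module `S_{(d^n)} V`, the span of all these tensors;
* `IsEmb f`: `f` restricts to an embedding of `GL(V)`-modules `S_{(d^n)} V → S^d(S^n V)`;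
* `InIsotypic T`: `T` lies in the `S_{(d^n)} V`-isotypic component of `S^d(S^n V)`.
-/

open Module

namespace Pool.Agent.W448.HHH

section

variable {V : Type*} [AddCommGroup V] [Module ℂ V]

/-- Relabelling the tensor positions: `(relabel σ T) φ = T (fun i => φ (σ i))`. -/
def relabel {ι ι' : Type*} (σ : ι ≃ ι') (T : Tens V ι) : Tens V ι' := T.domDomCongr σ

/-- The action of `g ∈ GL(V)`: `(glAct g T) φ = T (fun i => φ i ∘ g)`. -/
noncomputable def glAct {ι : Type*} (g : V ≃ₗ[ℂ] V) (T : Tens V ι) : Tens V ι :=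
  T.compLinearMap (fun _ : ι => (g : V →ₗ[ℂ] V).dualMap)

/-- `T ∈ V^{⊗(k × m)}` (`k` blocks of `m` factors) lies in `S^k(S^m V)`: it is invariant under all
permutations of positions `(a, i) ↦ (τ a, ρ_a i)`, i.e. it is symmetric inside
each block and under permuting the blocks. -/
def IsSymSym {k m : ℕ} (T : Tens V (Fin k × Fin m)) : Prop :=
  ∀ (τ : Equiv.Perm (Fin k)) (ρ : Fin k → Equiv.Perm (Fin m)),
    relabel (Equiv.prodShear τ ρ) T = T

/-- Symmetrization inside each of the `k` blocks of `m` factors. -/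
noncomputable def avgInner {k m : ℕ} (T : Tens V (Fin k × Fin m)) : Tens V (Fin k × Fin m) :=
  ((m.factorial : ℂ) ^ k)⁻¹ • ∑ ρ : Fin k → Equiv.Perm (Fin m),
    relabel (Equiv.prodShear (Equiv.refl (Fin k)) ρ) T

/-- Symmetrization over the `k` blocks of `m` factors. -/
noncomputable def avgBlocks {k m : ℕ} (T : Tens V (Fin k × Fin m)) : Tens V (Fin k × Fin m) :=
  (k.factorial : ℂ)⁻¹ • ∑ τ : Equiv.Perm (Fin k),
    relabel (Equiv.prodShear τ (fun _ => Equiv.refl (Fin m))) T

/-- The Hermite-Hadamard-Howe map `h_{d,n}`: regroup the `d` blocks of `n` factors into `n` blocks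
of `d` factors (the `i`-th new block collects the `i`-th factor of each old block),
symmetrize inside each new block, then symmetrize over the new blocks. -/
noncomputable def hhhMap (d n : ℕ) (T : Tens V (Fin d × Fin n)) : Tens V (Fin n × Fin d) :=
  avgBlocks (avgInner (relabel (Equiv.prodComm (Fin d) (Fin n)) T))

/-- `T` lies in the irreducible `GL(V)`-module `S_{(d^n)} V` (`n` rows of length `d`), realised as
the span of all `(w_1 ∧ … ∧ w_n)^{⊗ d}` in `V^{⊗(d × n)}`. -/
def IsRect {d n : ℕ} (T : Tens V (Fin d × Fin n)) : Prop :=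
  T ∈ Submodule.span ℂ (Set.range (fun w : Fin n → V => wedgePow d w))

/-- The restriction of `f` to `S_{(d^n)} V` is an embedding of `GL(V)`-modules
`S_{(d^n)} V → S^d(S^n V)`: it is additive, homogeneous, injective, has values in `S^d(S^n V)` and
commutes with the action of `GL(V)`. -/
def IsEmb {d n : ℕ} (f : Tens V (Fin d × Fin n) → Tens V (Fin d × Fin n)) : Prop :=
  (∀ x y, IsRect x → IsRect y → f (x + y) = f x + f y) ∧
  (∀ (c : ℂ) (x), IsRect x → f (c • x) = c • f x) ∧
  (∀ x, IsRect x → f x = 0 → x = 0) ∧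
  (∀ x, IsRect x → IsSymSym (f x)) ∧
  (∀ (g : V ≃ₗ[ℂ] V) (x), IsRect x → f (glAct g x) = glAct g (f x))

/-- `T` lies in the `S_{(d^n)} V`-isotypic component of `S^d(S^n V)`, which is the span of the
images of all embeddings of `GL(V)`-modules `S_{(d^n)} V → S^d(S^n V)`. -/
def InIsotypic {d n : ℕ} (T : Tens V (Fin d × Fin n)) : Prop :=
  T ∈ Submodule.span ℂ {S | ∃ f, IsEmb f ∧ ∃ x : Tens V (Fin d × Fin n), IsRect x ∧ f x = S}

end

variable {V : Type*} [AddCommGroup V] [Module ℂ V]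

theorem hhhMap_eq (d n : ℕ) (T : Tens V (Fin d × Fin n)) : hhhMap d n T = hhhTens V d n T := by
  simp only [hhhTens, symBlocks, symInner, LinearMap.comp_apply, LinearMap.smul_apply,
    LinearMap.sum_apply]
  rfl

/-- Sanity check: `h_{d,n}(x_1^n ⋯ x_d^n) = (x_1 ⋯ x_d)^n`. -/
theorem hhhMap_powers (d n : ℕ) (x : Fin d → V) :
    hhhMap d n (avgBlocks (pureT (fun p => x p.1))) = avgInner (pureT (fun p => x p.2)) := by
  have h := hhhTens_powers d n x
  rw [← hhhMap_eq] at h
  simp only [symBlocks, symInner, LinearMap.smul_apply, LinearMap.sum_apply] at h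
  exact h

theorem isRect_iff {d n : ℕ} (T : Tens V (Fin d × Fin n)) : IsRect T ↔ T ∈ rectSchur V d n :=
  Iff.rfl

/-- An embedding as a linear map into `symSym`. -/
noncomputable def embLift {d n : ℕ} (f : Tens V (Fin d × Fin n) → Tens V (Fin d × Fin n))
    (hf : IsEmb f) : rectSchur V d n →ₗ[ℂ] symSym V d n where
  toFun x := ⟨f x, hf.2.2.2.1 x x.2⟩
  map_add' x y := Subtype.ext (hf.1 x y x.2 y.2)
  map_smul' c x := Subtype.ext (hf.2.1 c x x.2)

theorem hhhMap_eq_zero {d n : ℕ} (hd : Odd d) (hn : 2 ≤ n) (T : Tens V (Fin d × Fin n))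
    (hT : InIsotypic T) : hhhMap d n T = 0 := by
  rw [hhhMap_eq]
  refine Submodule.span_induction (p := fun T _ => hhhTens V d n T = 0) ?_ ?_ ?_ ?_ hT
  · rintro _ ⟨f, hf, x, hx, rfl⟩
    have hmem : embLift f hf ⟨x, hx⟩ ∈ rectIsotypic V d n := by
      have hle := le_iSup (fun e : {e : rectSchur V d n →ₗ[ℂ] symSym V d n //
        Function.Injective e ∧ ∀ g : V ≃ₗ[ℂ] V, e ∘ₗ rectAct V d n g = symAct V d n g ∘ₗ e} =>
        LinearMap.range e.1) ⟨embLift f hf, ?_, ?_⟩
      · exact hle ⟨⟨x, hx⟩, rfl⟩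
      · rw [← LinearMap.ker_eq_bot, LinearMap.ker_eq_bot']
        intro y hy
        exact Subtype.ext (hf.2.2.1 y y.2 (congrArg Subtype.val hy))
      · intro g
        refine LinearMap.ext ?_
        intro y
        exact Subtype.ext (hf.2.2.2.2 g y y.2)
    have hk := rectIsotypic_le_ker V hd hn hmem
    exact congrArg Subtype.val (LinearMap.mem_ker.1 hk)
  · exact map_zero _
  · intro a b _ _ ha hb
    rw [map_add, ha, hb, add_zero]
  · intro c a _ ha
    rw [map_smul, ha, smul_zero]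

theorem isotypic_seven_four [FiniteDimensional ℂ V] (hV : 4 ≤ finrank ℂ V) :
    ∃ T : Tens V (Fin 7 × Fin 4), InIsotypic T ∧ T ≠ 0 := by
  classical
  by_contra hcon
  push Not at hcon
  apply rectIsotypic_seven_four_ne_bot hV
  rw [rectIsotypic, iSup_eq_bot]
  rintro ⟨e, hinj, heq⟩
  rw [eq_bot_iff]
  rintro _ ⟨x, rfl⟩
  rw [Submodule.mem_bot]
  apply Subtype.ext
  let f : Tens V (Fin 7 × Fin 4) → Tens V (Fin 7 × Fin 4) := fun T =>
    if hT : T ∈ rectSchur V 7 4 then (e ⟨T, hT⟩ : Tens V (Fin 7 × Fin 4)) else 0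
  have hfe : ∀ (T : Tens V (Fin 7 × Fin 4)) (hT : T ∈ rectSchur V 7 4),
      f T = (e ⟨T, hT⟩ : Tens V (Fin 7 × Fin 4)) := by
    intro T hT
    simp only [f, dif_pos hT]
  have h0 : f x = 0 := by
    refine hcon _ (Submodule.subset_span ⟨f, ?_, x, x.2, rfl⟩)
    refine ⟨?_, ?_, ?_, ?_, ?_⟩
    · intro y z hy hz
      rw [hfe y hy, hfe z hz, hfe (y + z) (Submodule.add_mem _ hy hz)]
      have : (⟨y + z, Submodule.add_mem _ hy hz⟩ : rectSchur V 7 4) = ⟨y, hy⟩ + ⟨z, hz⟩ := rfl
      rw [this, map_add]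
      rfl
    · intro c y hy
      rw [hfe y hy, hfe (c • y) (Submodule.smul_mem _ c hy)]
      have : (⟨c • y, Submodule.smul_mem _ c hy⟩ : rectSchur V 7 4) = c • ⟨y, hy⟩ := rfl
      rw [this, map_smul]
      rfl
    · intro y hy h
      rw [hfe y hy] at h
      have h1 : e ⟨y, hy⟩ = 0 := Subtype.ext h
      have h2 := (map_eq_zero_iff e hinj).1 h1
      exact congrArg Subtype.val h2
    · intro y hy
      rw [hfe y hy]
      exact (e ⟨y, hy⟩).2
    · intro g y hy
      have hgy : glAct g y ∈ rectSchur V 7 4 := act_mem_rectSchur g hy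
      rw [hfe y hy, hfe _ hgy]
      exact congrArg Subtype.val (LinearMap.congr_fun (heq g) ⟨y, hy⟩)
  rw [hfe x x.2] at h0
  exact h0

end Pool.Agent.W448.HHH
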